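import Pool.Agent.Helper43.Gr.Goals

/-! # R8a: blocks -/

set_option autoImplicit false

namespace Pool.Agent.Helper43.Gr.PkR8a

open Finset
open Pool.Agent.Helper43.Gr

/-- the block `j` of length `b` -/
def blk (s b j : ℕ) : Finset (Fin s) := Finset.univ.filter (fun i : Fin s => (i : ℕ) / b = j)

theorem card_blk {s b j : ℕ} (hb : 1 ≤ b) (hj : j < s / b) : (blk s b j).card = b := by
  have h1 : (j + 1) * b ≤ s := by
    calc (j + 1) * b ≤ (s / b) * b := Nat.mul_le_mul_right b hj
      _ ≤ s := Nat.div_mul_le_self s b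
  have h2 : (blk s b j).card = (Finset.Ico (j * b) (j * b + b)).card := by
    refine Finset.card_bij (fun i _ => (i : ℕ)) ?_ ?_ ?_
    · intro i hi
      have hi' : (i : ℕ) / b = j := (Finset.mem_filter.1 hi).2
      rw [Finset.mem_Ico, ← hi']
      have e1 := Nat.div_add_mod (i : ℕ) b
      have e2 := Nat.mod_lt (i : ℕ) hb
      have e3 : b * ((i : ℕ) / b) = (i : ℕ) / b * b := Nat.mul_comm _ _
      constructor
      · omega
      · omega
    · intro i _ k _ h
      exact Fin.ext h
    · intro x hx
      rw [Finset.mem_Ico] at hx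
      have h3 : (j + 1) * b = j * b + b := by ring
      refine ⟨⟨x, by omega⟩, ?_, rfl⟩
      refine Finset.mem_filter.2 ⟨Finset.mem_univ _, ?_⟩
      show x / b = j
      obtain ⟨t, rfl⟩ : ∃ t, x = j * b + t := ⟨x - j * b, by omega⟩
      rw [Nat.mul_comm j b, Nat.mul_add_div (by omega)]
      rw [Nat.div_eq_of_lt (by omega)]
      rfl
  rw [h2, Nat.card_Ico]
  omega

theorem goalR8a : GoalR8a := by
  classical
  intro s M b B hM hb hB
  have hMr : (0 : ℝ) < M := by exact_mod_cast hM
  have hBM : B.card ≤ M := by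
    have := Finset.card_le_card hB
    rwa [Nat.card_Icc, Nat.add_sub_cancel] at this
  have hBMr : (B.card : ℝ) ≤ M := by exact_mod_cast hBM
  have hρ : 0 ≤ 1 - (B.card : ℝ) / M := by
    have : (B.card : ℝ) / M ≤ 1 := (div_le_one hMr).2 hBMr
    linarith
  rcases Nat.eq_zero_or_pos (s / b) with hq | hq
  · have : (Om s M).filter (fun m => 2 * (Finset.univ.filter (fun i => m i ∈ B)).card < s / b) =
        ∅ := by
      rw [hq]
      exact Finset.filter_false_of_mem (fun m _ => by omega)
    rw [this]
    simp only [Finset.card_empty, Nat.cast_zero]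
    positivity
  set q := s / b with hqdef
  set Bad := (Om s M).filter
    (fun m => 2 * (Finset.univ.filter (fun i => m i ∈ B)).card < q) with hBad
  let Q : (Fin s → ℕ) → ℕ → Prop := fun m j => ∀ i ∈ blk s b j, m i ∉ B
  have hE : ∀ j ∈ Finset.range q, (((Om s M).filter (fun m => Q m j)).card : ℝ) =
      (1 - (B.card : ℝ) / M) ^ b * (M : ℝ) ^ s := by
    intro j hj
    have hj' := Finset.mem_range.1 hj
    have e1 : (Om s M).filter (fun m => Q m j) =
        Fintype.piFinset (fun i : Fin s => if i ∈ blk s b j then Icc 1 M \ B else Icc 1 M) := by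
      ext m
      simp only [Om, Finset.mem_filter, Fintype.mem_piFinset, Q]
      constructor
      · rintro ⟨h1, h2⟩ i
        by_cases hi : i ∈ blk s b j
        · rw [if_pos hi]
          exact Finset.mem_sdiff.2 ⟨h1 i, h2 i hi⟩
        · rw [if_neg hi]
          exact h1 i
      · intro h
        refine ⟨fun i => ?_, fun i hi => ?_⟩
        · have := h i
          by_cases hi : i ∈ blk s b j
          · rw [if_pos hi] at this
            exact (Finset.mem_sdiff.1 this).1
          · rwa [if_neg hi] at this
        · have := h i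
          rw [if_pos hi] at this
          exact (Finset.mem_sdiff.1 this).2
    have e2 : (Icc 1 M \ B).card = M - B.card := by
      rw [Finset.card_sdiff_of_subset hB, Nat.card_Icc, Nat.add_sub_cancel]
    rw [e1, Fintype.card_piFinset]
    push_cast
    have e3 : ∀ i : Fin s, ((if i ∈ blk s b j then Icc 1 M \ B else Icc 1 M).card : ℝ) =
        (if i ∈ blk s b j then (1 - (B.card : ℝ) / M) else 1) * M := by
      intro i
      by_cases hi : i ∈ blk s b j
      · rw [if_pos hi, if_pos hi, e2, Nat.cast_sub hBM]
        field_simp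
      · rw [if_neg hi, if_neg hi, Nat.card_Icc, Nat.add_sub_cancel, one_mul]
    simp only [e3]
    rw [Finset.prod_mul_distrib, Finset.prod_const, Finset.card_univ, Fintype.card_fin,
      Finset.prod_ite, Finset.prod_const, Finset.prod_const_one, mul_one]
    have e4 : (Finset.univ.filter (fun i => i ∈ blk s b j)) = blk s b j := by
      ext i
      simp
    rw [e4, card_blk hb hj']
  have hD : ∀ m ∈ Bad, (q : ℝ) / 2 ≤ (((Finset.range q).filter (fun j => Q m j)).card : ℝ) := by
    intro m hm
    have h1 : 2 * (Finset.univ.filter (fun i => m i ∈ B)).card < q := (Finset.mem_filter.1 hm).2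
    have h2 : ((Finset.range q).filter (fun j => ¬ Q m j)).card ≤
        (Finset.univ.filter (fun i => m i ∈ B)).card := by
      have : (Finset.range q).filter (fun j => ¬ Q m j) ⊆
          (Finset.univ.filter (fun i => m i ∈ B)).image (fun i : Fin s => (i : ℕ) / b) := by
        intro j hj
        obtain ⟨_, hj2⟩ := Finset.mem_filter.1 hj
        simp only [Q, not_forall, not_not] at hj2
        obtain ⟨i, hi, hiB⟩ := hj2
        exact Finset.mem_image.2 ⟨i, Finset.mem_filter.2 ⟨Finset.mem_univ _, hiB⟩,
          (Finset.mem_filter.1 hi).2⟩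
      exact (Finset.card_le_card this).trans Finset.card_image_le
    have h3 := Finset.card_filter_add_card_filter_not (s := Finset.range q) (fun j => Q m j)
    rw [Finset.card_range] at h3
    have h4 : q ≤ 2 * ((Finset.range q).filter (fun j => Q m j)).card := by omega
    have h5 : (q : ℝ) ≤ 2 * (((Finset.range q).filter (fun j => Q m j)).card : ℝ) := by
      exact_mod_cast h4
    linarith
  have hS : (Bad.card : ℝ) * ((q : ℝ) / 2) ≤
      q * ((1 - (B.card : ℝ) / M) ^ b * (M : ℝ) ^ s) := by
    calc (Bad.card : ℝ) * ((q : ℝ) / 2) = ∑ m ∈ Bad, (q : ℝ) / 2 := by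
          rw [Finset.sum_const, nsmul_eq_mul]
      _ ≤ ∑ m ∈ Bad, (((Finset.range q).filter (fun j => Q m j)).card : ℝ) :=
          Finset.sum_le_sum hD
      _ ≤ ∑ m ∈ Om s M, (((Finset.range q).filter (fun j => Q m j)).card : ℝ) :=
          Finset.sum_le_sum_of_subset_of_nonneg (Finset.filter_subset _ _)
            (fun _ _ _ => Nat.cast_nonneg _)
      _ = ∑ m ∈ Om s M, ∑ j ∈ Finset.range q, (if Q m j then (1 : ℝ) else 0) := by
          refine Finset.sum_congr rfl fun m _ => ?_
          rw [Finset.card_filter]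
          push_cast
          rfl
      _ = ∑ j ∈ Finset.range q, ∑ m ∈ Om s M, (if Q m j then (1 : ℝ) else 0) :=
          Finset.sum_comm
      _ = ∑ j ∈ Finset.range q, (((Om s M).filter (fun m => Q m j)).card : ℝ) := by
          refine Finset.sum_congr rfl fun j _ => ?_
          rw [Finset.card_filter]
          push_cast
          rfl
      _ = q * ((1 - (B.card : ℝ) / M) ^ b * (M : ℝ) ^ s) := by
          rw [Finset.sum_congr rfl hE, Finset.sum_const, Finset.card_range, nsmul_eq_mul]
  have hqr : (0 : ℝ) < q := by exact_mod_cast hq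
  have h6 : (q : ℝ) * ((Bad.card : ℝ) / 2) ≤
      q * ((1 - (B.card : ℝ) / M) ^ b * (M : ℝ) ^ s) := by
    calc (q : ℝ) * ((Bad.card : ℝ) / 2) = (Bad.card : ℝ) * ((q : ℝ) / 2) := by ring
      _ ≤ _ := hS
  have h7 := le_of_mul_le_mul_left h6 hqr
  linarith

end Pool.Agent.Helper43.Gr.PkR8a
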