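import Pool.Agent.Helper43.Gr.Goals

/-! # R8b: most sequences are graded -/

set_option autoImplicit false

namespace Pool.Agent.Helper43.Gr.PkR8b

open Finset
open Pool.Agent.Helper43.Gr

/-- the dyadic blocks of values -/
def Bs (j : ℕ) : Finset ℕ := if j = 0 then {1} else Ioc (2 ^ (j - 1)) (2 ^ j)

theorem Bs_sub {j v : ℕ} (h : v ∈ Bs j) : 1 ≤ v ∧ v ≤ 2 ^ j ∧ 4 ^ j ≤ 8 * (v + 1).choose 2 := by
  unfold Bs at h
  by_cases hj : j = 0
  · rw [if_pos hj, Finset.mem_singleton] at h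
    subst hj; subst h
    decide
  · rw [if_neg hj, Finset.mem_Ioc] at h
    obtain ⟨t, rfl⟩ : ∃ t, j = t + 1 := ⟨j - 1, by omega⟩
    rw [Nat.add_sub_cancel] at h
    have h2 : 1 ≤ 2 ^ t := Nat.one_le_two_pow
    refine ⟨by omega, h.2, ?_⟩
    have e1 : (v + 1).choose 2 * 2 = (v + 1) * v := by
      rw [Nat.choose_two_right, Nat.add_sub_cancel]
      exact Nat.div_mul_cancel (Nat.even_mul_pred_self (v + 1)).two_dvd
    have e2 : 4 ^ (t + 1) = 4 * (2 ^ t * 2 ^ t) := by
      rw [← pow_add, pow_succ, ← two_mul, pow_mul]; norm_num; ring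
    have e3 : 2 ^ t * 2 ^ t ≤ (v + 1) * v := Nat.mul_le_mul (by omega) (by omega)
    rw [e2]
    calc 4 * (2 ^ t * 2 ^ t) ≤ 4 * ((v + 1) * v) := Nat.mul_le_mul_left 4 e3
      _ = 8 * (v + 1).choose 2 := by rw [← e1]; ring

theorem Bs_card (j : ℕ) : 2 ^ j ≤ 2 * (Bs j).card := by
  unfold Bs
  by_cases hj : j = 0
  · rw [if_pos hj]; subst hj; decide
  · rw [if_neg hj]
    obtain ⟨t, rfl⟩ : ∃ t, j = t + 1 := ⟨j - 1, by omega⟩
    rw [Nat.card_Ioc, Nat.add_sub_cancel, pow_succ]
    omega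

theorem graded_of {s M K : ℕ} (hK : 1 ≤ K) {m : Fin s → ℕ} (hm : m ∈ Om s M)
    (h : ∀ j, K < 2 ^ (j + 1) → 2 ^ j < M →
      320 ≤ (Finset.univ.filter (fun i => m i ∈ Bs j)).card) : Graded s m K := by
  intro i hi
  have hmi : m i ∈ Icc 1 M := (Fintype.mem_piFinset.1 hm) i
  rw [Finset.mem_Icc] at hmi
  set k := m i with hk
  set j := Nat.log 2 (k - 1) with hj
  have h1 : 2 ^ j ≤ k - 1 := Nat.pow_log_le_self 2 (by omega)
  have h2 : k - 1 < 2 ^ (j + 1) := Nat.lt_pow_succ_log_self (by norm_num) _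
  have h3 := h j (by omega) (by omega)
  have h4 : (Finset.univ.filter (fun i => m i ∈ Bs j)).card * 4 ^ j ≤
      8 * ∑ l ∈ Finset.univ.filter (fun l => m l < k), (m l + 1).choose 2 := by
    calc (Finset.univ.filter (fun i => m i ∈ Bs j)).card * 4 ^ j
        = ∑ _l ∈ Finset.univ.filter (fun i => m i ∈ Bs j), 4 ^ j := by
          rw [Finset.sum_const, smul_eq_mul]
      _ ≤ ∑ l ∈ Finset.univ.filter (fun i => m i ∈ Bs j), 8 * (m l + 1).choose 2 := by
          refine Finset.sum_le_sum fun l hl => ?_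
          exact (Bs_sub (Finset.mem_filter.1 hl).2).2.2
      _ ≤ ∑ l ∈ Finset.univ.filter (fun l => m l < k), 8 * (m l + 1).choose 2 := by
          refine Finset.sum_le_sum_of_subset ?_
          intro l hl
          refine Finset.mem_filter.2 ⟨Finset.mem_univ _, ?_⟩
          have := (Bs_sub (Finset.mem_filter.1 hl).2).2.1
          omega
      _ = 8 * ∑ l ∈ Finset.univ.filter (fun l => m l < k), (m l + 1).choose 2 := by
          rw [Finset.mul_sum]
  have h5 : 320 * 4 ^ j ≤ 8 * ∑ l ∈ Finset.univ.filter (fun l => m l < k), (m l + 1).choose 2 :=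
    (Nat.mul_le_mul_right _ h3).trans h4
  have h6 : k ^ 2 ≤ 4 * 4 ^ j := by
    have : k ≤ 2 ^ (j + 1) := by omega
    calc k ^ 2 ≤ (2 ^ (j + 1)) ^ 2 := Nat.pow_le_pow_left this 2
      _ = 4 * 4 ^ j := by rw [← pow_mul, mul_comm, pow_mul, pow_succ]; norm_num; ring
  show 10 * k ^ 2 ≤ ∑ l ∈ Finset.univ.filter (fun l => m l < k), (m l + 1).choose 2
  omega

theorem geo_sum {r : ℝ} (h0 : 0 ≤ r) (h1 : r ≤ 1 / 2) (N : ℕ) :
    ∑ i ∈ Finset.range N, r ^ (i + 1) ≤ 2 * r := by
  have h2 : ∑ i ∈ Finset.range N, r ^ (i + 1) = r * ∑ i ∈ Finset.range N, r ^ i := by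
    rw [Finset.mul_sum]
    exact Finset.sum_congr rfl fun i _ => by ring
  have h3 : ∑ i ∈ Finset.range N, r ^ i ≤ 2 := by
    have h4 : r ≠ 1 := by linarith
    rw [geom_sum_eq h4]
    have h5 : 0 ≤ r ^ N := by positivity
    rw [← neg_div_neg_eq, div_le_iff₀ (by linarith)]
    linarith
  rw [h2]
  nlinarith

theorem goalR8b (h8a : GoalR8a) : GoalR8b := by
  classical
  intro ε hε
  set L : ℝ := 1 + |Real.log (4 / ε)| with hL
  have hL1 : 1 ≤ L := by
    have := abs_nonneg (Real.log (4 / ε))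
    linarith
  refine ⟨5120 * L, by linarith, ?_⟩
  intro s M K hM hK hC
  have hMr : (0 : ℝ) < M := by exact_mod_cast hM
  have hKr : (0 : ℝ) < K := by exact_mod_cast hK
  set J : Finset ℕ := (Finset.range M).filter (fun j => K < 2 ^ (j + 1) ∧ 2 ^ j < M) with hJ
  have hJm : ∀ j, K < 2 ^ (j + 1) → 2 ^ j < M → j ∈ J := by
    intro j h1 h2
    refine Finset.mem_filter.2 ⟨Finset.mem_range.2 ?_, h1, h2⟩
    exact lt_trans Nat.lt_two_pow_self h2
  set b := s / 640 with hb
  have hsub : (Om s M).filter (fun m => ¬ Graded s m K) ⊆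
      J.biUnion (fun j => (Om s M).filter
        (fun m => (Finset.univ.filter (fun i => m i ∈ Bs j)).card < 320)) := by
    intro m hm
    obtain ⟨hm1, hm2⟩ := Finset.mem_filter.1 hm
    by_contra hcon
    apply hm2
    refine graded_of hK hm1 fun j h1 h2 => ?_
    by_contra h3
    exact hcon (Finset.mem_biUnion.2 ⟨j, hJm j h1 h2, Finset.mem_filter.2 ⟨hm1, by omega⟩⟩)
  have hcard : (((Om s M).filter (fun m => ¬ Graded s m K)).card : ℝ) ≤
      ∑ j ∈ J, (((Om s M).filter
        (fun m => (Finset.univ.filter (fun i => m i ∈ Bs j)).card < 320)).card : ℝ) := by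
    exact_mod_cast (Finset.card_le_card hsub).trans Finset.card_biUnion_le
  have hpow : (0 : ℝ) ≤ (M : ℝ) ^ s := by positivity
  rcases J.eq_empty_or_nonempty with hJe | ⟨j1, hj1⟩
  · rw [hJe, Finset.sum_empty] at hcard
    exact hcard.trans (by positivity)
  obtain ⟨_, hj2, hj3⟩ := Finset.mem_filter.1 hj1
  have hK2 : K < 2 * M := by
    rw [pow_succ] at hj2
    omega
  have hK2r : (K : ℝ) < 2 * M := by exact_mod_cast hK2
  have hs1 : (2560 : ℝ) < s := by
    by_contra hcon
    push Not at hcon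
    have h1 : (K : ℝ) * s ≤ 2 * M * 2560 := by
      calc (K : ℝ) * s ≤ K * 2560 := by gcongr
        _ ≤ 2 * M * 2560 := by gcongr
    have h3 : (5120 : ℝ) * M ≤ 5120 * L * M := by
      have : (5120 : ℝ) * L * M = 5120 * M * L := by ring
      rw [this]
      nlinarith
    have h4 : (K : ℝ) * s < 5120 * M := by
      rcases Nat.eq_zero_or_pos s with h0 | h0
      · rw [h0]; simp; linarith
      · have h0r : (0 : ℝ) < s := by exact_mod_cast h0
        calc (K : ℝ) * s < 2 * M * s := by gcongr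
          _ ≤ 2 * M * 2560 := by gcongr
          _ = 5120 * M := by ring
    linarith
  have hs2 : 2560 < s := by exact_mod_cast hs1
  have hb1 : 1 ≤ b := by omega
  have hb2 : 640 ≤ s / b := by
    rw [Nat.le_div_iff_mul_le hb1]
    omega
  have hb3 : s ≤ 1280 * b := by omega
  have hb3r : (s : ℝ) ≤ 1280 * b := by exact_mod_cast hb3
  set u : ℝ := b * K / (4 * M) with hu
  have hu1 : L ≤ u := by
    rw [hu, le_div_iff₀ (by positivity)]
    have h1 : (K : ℝ) * s ≤ K * (1280 * b) := by gcongr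
    nlinarith
  set r : ℝ := Real.exp (-u) with hr
  have hr0 : 0 ≤ r := (Real.exp_pos _).le
  have hr1 : r ≤ 1 / 2 := by
    have h1 : r ≤ Real.exp (-1) := Real.exp_le_exp.2 (by linarith)
    have h2 : Real.exp (-1) < 1 / 2 := by
      have := Real.exp_one_gt_d9
      rw [Real.exp_neg, inv_eq_one_div, div_lt_div_iff₀ (Real.exp_pos 1) (by norm_num)]
      linarith
    linarith
  have hr2 : 4 * r ≤ ε := by
    have h1 : r ≤ Real.exp (-Real.log (4 / ε)) :=
      Real.exp_le_exp.2 (by linarith [le_abs_self (Real.log (4 / ε))])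
    rw [Real.exp_neg, Real.exp_log (by positivity)] at h1
    have h2 : (4 / ε)⁻¹ = ε / 4 := by rw [inv_div]
    rw [h2] at h1
    linarith
  have hterm : ∀ j ∈ J, (((Om s M).filter
      (fun m => (Finset.univ.filter (fun i => m i ∈ Bs j)).card < 320)).card : ℝ) ≤
      2 * Real.exp (-(b * 2 ^ j / (2 * M))) * (M : ℝ) ^ s := by
    intro j hj
    obtain ⟨_, hj2, hj3⟩ := Finset.mem_filter.1 hj
    have h1 : Bs j ⊆ Icc 1 M := by
      intro v hv
      have := Bs_sub hv
      rw [Finset.mem_Icc]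
      omega
    have h2 := h8a s M b (Bs j) hM hb1 h1
    have h3 : (Om s M).filter
        (fun m => (Finset.univ.filter (fun i => m i ∈ Bs j)).card < 320) ⊆
        (Om s M).filter
        (fun m => 2 * (Finset.univ.filter (fun i => m i ∈ Bs j)).card < s / b) := by
      intro m hm
      obtain ⟨hm1, hm2⟩ := Finset.mem_filter.1 hm
      exact Finset.mem_filter.2 ⟨hm1, by omega⟩
    have h4 : (((Om s M).filter
        (fun m => (Finset.univ.filter (fun i => m i ∈ Bs j)).card < 320)).card : ℝ) ≤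
        (((Om s M).filter
        (fun m => 2 * (Finset.univ.filter (fun i => m i ∈ Bs j)).card < s / b)).card : ℝ) := by
      exact_mod_cast Finset.card_le_card h3
    refine (h4.trans h2).trans ?_
    have hBM : (Bs j).card ≤ M := by
      have := Finset.card_le_card h1
      rwa [Nat.card_Icc, Nat.add_sub_cancel] at this
    have hBMr : ((Bs j).card : ℝ) ≤ M := by exact_mod_cast hBM
    have h5 : 0 ≤ 1 - ((Bs j).card : ℝ) / M := by
      have : ((Bs j).card : ℝ) / M ≤ 1 := (div_le_one hMr).2 hBMr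
      linarith
    have h6 : 1 - ((Bs j).card : ℝ) / M ≤ Real.exp (-(((Bs j).card : ℝ) / M)) := by
      have := Real.add_one_le_exp (-(((Bs j).card : ℝ) / M))
      linarith
    have h7 : (1 - ((Bs j).card : ℝ) / M) ^ b ≤ Real.exp (-(b * 2 ^ j / (2 * M))) := by
      calc (1 - ((Bs j).card : ℝ) / M) ^ b ≤ (Real.exp (-(((Bs j).card : ℝ) / M))) ^ b :=
            pow_le_pow_left₀ h5 h6 b
        _ = Real.exp (b * (-(((Bs j).card : ℝ) / M))) := by rw [Real.exp_nat_mul]
        _ ≤ Real.exp (-(b * 2 ^ j / (2 * M))) := by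
            rw [Real.exp_le_exp]
            have h8 : (2 : ℝ) ^ j ≤ 2 * (Bs j).card := by exact_mod_cast Bs_card j
            have h9 : (b : ℝ) * 2 ^ j / (2 * M) ≤ b * (((Bs j).card : ℝ) / M) := by
              rw [div_le_iff₀ (by positivity)]
              have : (b : ℝ) * (((Bs j).card : ℝ) / M) * (2 * M) = b * (2 * (Bs j).card) := by
                field_simp
              rw [this]
              gcongr
            linarith
    gcongr
  set j0 := Nat.log 2 K with hj0
  have hj0K : K < 2 ^ (j0 + 1) := Nat.lt_pow_succ_log_self (by norm_num) _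
  have hj0r : (K : ℝ) ≤ 2 ^ (j0 + 1) := by exact_mod_cast hj0K.le
  have hJsub : J ⊆ (Finset.range M).image (fun i => j0 + i) := by
    intro j hj
    obtain ⟨hj1, hj2, hj3⟩ := Finset.mem_filter.1 hj
    have h1 : j0 < j + 1 := (Nat.log_lt_iff_lt_pow (by norm_num) (by omega)).2 hj2
    refine Finset.mem_image.2 ⟨j - j0, Finset.mem_range.2 ?_, by omega⟩
    have := Finset.mem_range.1 hj1
    omega
  have hf : ∀ i, Real.exp (-((b : ℝ) * 2 ^ (j0 + i) / (2 * M))) ≤ r ^ (i + 1) := by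
    intro i
    rw [hr, ← Real.exp_nat_mul, Real.exp_le_exp]
    have h1 : ((i : ℝ) + 1) ≤ 2 ^ i := by
      have : i + 1 ≤ 2 ^ i := Nat.lt_two_pow_self
      exact_mod_cast this
    have h2 : ((i : ℝ) + 1) * u ≤ (b : ℝ) * 2 ^ (j0 + i) / (2 * M) := by
      rw [hu, ← mul_div_assoc, div_le_div_iff₀ (by positivity) (by positivity)]
      have h3 : ((i : ℝ) + 1) * K ≤ 2 ^ i * 2 ^ (j0 + 1) := by gcongr
      have h4 : ((i : ℝ) + 1) * (b * K) * (2 * M) = (((i : ℝ) + 1) * K) * (b * (2 * M)) := by ring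
      have h5 : (b : ℝ) * 2 ^ (j0 + i) * (4 * M) = (2 ^ i * 2 ^ (j0 + 1)) * (b * (2 * M)) := by
        rw [pow_add, pow_add]; ring
      rw [h4, h5]
      gcongr
    push_cast
    linarith
  calc (((Om s M).filter (fun m => ¬ Graded s m K)).card : ℝ)
      ≤ ∑ j ∈ J, 2 * Real.exp (-(b * 2 ^ j / (2 * M))) * (M : ℝ) ^ s :=
        hcard.trans (Finset.sum_le_sum hterm)
    _ ≤ ∑ j ∈ (Finset.range M).image (fun i => j0 + i),
          2 * Real.exp (-(b * 2 ^ j / (2 * M))) * (M : ℝ) ^ s :=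
        Finset.sum_le_sum_of_subset_of_nonneg hJsub (fun _ _ _ => by positivity)
    _ = ∑ i ∈ Finset.range M, 2 * Real.exp (-(b * 2 ^ (j0 + i) / (2 * M))) * (M : ℝ) ^ s := by
        rw [Finset.sum_image]
        intro i _ k _ h
        exact Nat.add_left_cancel h
    _ ≤ ∑ i ∈ Finset.range M, 2 * r ^ (i + 1) * (M : ℝ) ^ s := by
        refine Finset.sum_le_sum fun i _ => ?_
        have := hf i
        gcongr
    _ = 2 * (∑ i ∈ Finset.range M, r ^ (i + 1)) * (M : ℝ) ^ s := by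
        rw [Finset.mul_sum, Finset.sum_mul]
    _ ≤ 2 * (2 * r) * (M : ℝ) ^ s := by
        have := geo_sum hr0 hr1 M
        gcongr
    _ = (4 * r) * (M : ℝ) ^ s := by ring
    _ ≤ ε * (M : ℝ) ^ s := by gcongr

end Pool.Agent.Helper43.Gr.PkR8b
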